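import Mathlib

/-!
# MP_4780e6_al : one-sided generalised Butson Hadamard matrices need not be two-sided

For `v = 2` the condition `M M* = 2 I` implies `M* M = 2 I` over every ring. For every `v ≥ 3`
there is a commutative ring `R` of characteristic zero with only the trivial idempotents and a
`v × v` matrix `M` with unit entries such that `M M* = v I` but `M* M ≠ v I`.

The ring is `R = A ⊕ ε K` with `ε² = 0`, where `A` is the ring of all algebraic integers,
`K = A/𝔭` for a maximal ideal `𝔭` containing a prime `p` dividing `v`, and `M` is the Fourier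
matrix with its first row `1, …, 1` changed to `1 + δ_j ε`, with `δ_0 = 1`, `δ_{v/p} = -1` and
`δ_j = 0` otherwise.
-/

namespace Pool.Agent.Results.MP_4780e6_al.OneSidedNotTwoSided

/-- The matrix over `R` with the given unit entries. -/
def mat {R : Type} [Ring R] {v : ℕ} (M : Matrix (Fin v) (Fin v) Rˣ) : Matrix (Fin v) (Fin v) R :=
  Matrix.of fun i j => ((M i j : Rˣ) : R)

/-- The matrix `M*`, the transpose of the matrix of entrywise inverses. -/
def star {R : Type} [Ring R] {v : ℕ} (M : Matrix (Fin v) (Fin v) Rˣ) :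
    Matrix (Fin v) (Fin v) R :=
  Matrix.of fun i j => (((M j i)⁻¹ : Rˣ) : R)

theorem two_aux {R : Type} [Ring R] (a b c d : Rˣ)
    (h : (a : R) * ((c⁻¹ : Rˣ) : R) + (b : R) * ((d⁻¹ : Rˣ) : R) = 0) :
    ((a⁻¹ : Rˣ) : R) * b + ((c⁻¹ : Rˣ) : R) * d = 0 := by
  have h1 : ((a * c⁻¹ : Rˣ) : R) = ((-(b * d⁻¹) : Rˣ) : R) := by
    push_cast
    rw [eq_neg_iff_add_eq_zero]
    exact h
  have h2 : a * c⁻¹ = -(b * d⁻¹) := Units.ext h1
  have h3 : a⁻¹ * b = -(c⁻¹ * d) := by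
    have h4 : b = -(a * c⁻¹ * d) := by
      rw [h2]
      simp [mul_assoc]
    have h5 : a⁻¹ * b = a⁻¹ * (-(a * c⁻¹ * d)) := by rw [← h4]
    rw [h5]
    simp [mul_assoc]
  have h6 := congrArg (Units.val) h3
  push_cast at h6
  rw [h6]
  simp

theorem two_case {R : Type} [Ring R] (M : Matrix (Fin 2) (Fin 2) Rˣ)
    (h : mat M * star M = (2 : R) • (1 : Matrix (Fin 2) (Fin 2) R)) :
    star M * mat M = (2 : R) • (1 : Matrix (Fin 2) (Fin 2) R) := by
  have h01 := congrFun (congrFun h 0) 1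
  have h10 := congrFun (congrFun h 1) 0
  simp only [Matrix.mul_apply, Fin.sum_univ_two, mat, star, Matrix.of_apply,
    Matrix.smul_apply, smul_eq_mul] at h01 h10
  rw [Matrix.one_apply_ne (by decide), mul_zero] at h01 h10
  ext i j
  fin_cases i <;> fin_cases j
  · simp [Matrix.mul_apply, mat, star]
  · simp only [Matrix.mul_apply, Fin.sum_univ_two, mat, star, Matrix.of_apply,
      Matrix.smul_apply, smul_eq_mul]
    simp only [Fin.zero_eta, Fin.mk_one]
    rw [Matrix.one_apply_ne (by decide), mul_zero]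
    exact two_aux _ _ _ _ h01
  · simp only [Matrix.mul_apply, Fin.sum_univ_two, mat, star, Matrix.of_apply,
      Matrix.smul_apply, smul_eq_mul]
    simp only [Fin.zero_eta, Fin.mk_one]
    rw [Matrix.one_apply_ne (by decide), mul_zero]
    rw [add_comm] at h01
    exact two_aux _ _ _ _ h01
  · simp [Matrix.mul_apply, mat, star]

section general

variable {A : Type} [CommRing A]

/-- The ring `A ⊕ ε (A/𝔭)` with `ε² = 0`. -/
abbrev Rg (A : Type) [CommRing A] (𝔭 : Ideal A) : Type := TrivSqZeroExt A (A ⧸ 𝔭)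

/-- The perturbation of the first row. -/
def delta (𝔭 : Ideal A) (m j : ℕ) : A ⧸ 𝔭 := (if j = 0 then 1 else 0) - (if j = m then 1 else 0)

theorem delta_zero (𝔭 : Ideal A) {m : ℕ} (hm : m ≠ 0) : delta 𝔭 m 0 = 1 := by
  simp [delta, hm.symm]

theorem delta_of_ne (𝔭 : Ideal A) {m j : ℕ} (h0 : j ≠ 0) (hm : j ≠ m) : delta 𝔭 m j = 0 := by
  simp [delta, h0, hm]

theorem sum_delta (𝔭 : Ideal A) {m v : ℕ} (hmv : m < v) (f : ℕ → A ⧸ 𝔭) :
    ∑ k : Fin v, f k * delta 𝔭 m k = f 0 - f m := by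
  rw [Fin.sum_univ_eq_sum_range (fun k => f k * delta 𝔭 m k) v]
  simp only [delta, mul_sub, Finset.sum_sub_distrib, mul_ite, mul_one, mul_zero]
  rw [Finset.sum_ite_eq', Finset.sum_ite_eq', if_pos (Finset.mem_range.2 hmv),
    if_pos (Finset.mem_range.2 (by omega))]

/-- The nilpotent part of the entries. -/
def dd (𝔭 : Ideal A) (m i j : ℕ) : A ⧸ 𝔭 := if i = 0 then delta 𝔭 m j else 0

/-- The element `a + ε x`. -/
def pr (𝔭 : Ideal A) (a : A) (x : A ⧸ 𝔭) : Rg A 𝔭 := TrivSqZeroExt.inl a + TrivSqZeroExt.inr x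

theorem fst_pr (𝔭 : Ideal A) (a : A) (x : A ⧸ 𝔭) : (pr 𝔭 a x).fst = a := by simp [pr]

theorem snd_pr (𝔭 : Ideal A) (a : A) (x : A ⧸ 𝔭) : (pr 𝔭 a x).snd = x := by simp [pr]

theorem pr_mul (𝔭 : Ideal A) (a b : A) (x y : A ⧸ 𝔭) :
    pr 𝔭 a x * pr 𝔭 b y = pr 𝔭 (a * b) (Ideal.Quotient.mk 𝔭 a * y + Ideal.Quotient.mk 𝔭 b * x) := by
  apply TrivSqZeroExt.ext
  · simp [pr]
  · simp only [TrivSqZeroExt.snd_mul, fst_pr, snd_pr, op_smul_eq_smul, Algebra.smul_def]
    rfl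

/-- The entries of the matrix. -/
def ent (𝔭 : Ideal A) (z : Aˣ) (m i j : ℕ) : (Rg A 𝔭)ˣ where
  val := pr 𝔭 ((z ^ (i * j) : Aˣ) : A) (dd 𝔭 m i j)
  inv := pr 𝔭 (((z ^ (i * j))⁻¹ : Aˣ) : A) (- dd 𝔭 m i j)
  val_inv := by
    rw [pr_mul, Units.mul_inv]
    have : Ideal.Quotient.mk 𝔭 ((z ^ (i * j) : Aˣ) : A) * -dd 𝔭 m i j +
        Ideal.Quotient.mk 𝔭 (((z ^ (i * j))⁻¹ : Aˣ) : A) * dd 𝔭 m i j = 0 := by
      by_cases h : i = 0
      · subst h; simp
      · simp [dd, h]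
    rw [this]
    simp [pr]
  inv_val := by
    rw [pr_mul, Units.inv_mul]
    have : Ideal.Quotient.mk 𝔭 (((z ^ (i * j))⁻¹ : Aˣ) : A) * dd 𝔭 m i j +
        Ideal.Quotient.mk 𝔭 ((z ^ (i * j) : Aˣ) : A) * -dd 𝔭 m i j = 0 := by
      by_cases h : i = 0
      · subst h; simp
      · simp [dd, h]
    rw [this]
    simp [pr]

theorem ent_val (𝔭 : Ideal A) (z : Aˣ) (m i j : ℕ) :
    ((ent 𝔭 z m i j : (Rg A 𝔭)ˣ) : Rg A 𝔭) = pr 𝔭 ((z ^ (i * j) : Aˣ) : A) (dd 𝔭 m i j) := rfl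

theorem ent_inv (𝔭 : Ideal A) (z : Aˣ) (m i j : ℕ) :
    (((ent 𝔭 z m i j)⁻¹ : (Rg A 𝔭)ˣ) : Rg A 𝔭) =
      pr 𝔭 (((z ^ (i * j))⁻¹ : Aˣ) : A) (- dd 𝔭 m i j) := rfl

/-- The matrix. -/
def Mx (𝔭 : Ideal A) (z : Aˣ) (m v : ℕ) : Matrix (Fin v) (Fin v) (Rg A 𝔭)ˣ :=
  Matrix.of fun i j => ent 𝔭 z m i j

theorem geom [IsDomain A] (v : ℕ) (x : Aˣ) (hx : x ^ v = 1) (hx1 : x ≠ 1) :
    ∑ k : Fin v, ((x ^ (k : ℕ) : Aˣ) : A) = 0 := by
  rw [Fin.sum_univ_eq_sum_range (fun k => ((x ^ k : Aˣ) : A)) v]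
  have h1 := mul_geom_sum (x : A) v
  have h2 : ((x : A)) ^ v = 1 := by
    rw [← Units.val_pow_eq_pow_val, hx, Units.val_one]
  rw [h2, sub_self] at h1
  rcases mul_eq_zero.1 h1 with h | h
  · exfalso
    apply hx1
    apply Units.ext
    rw [Units.val_one]
    linear_combination h
  · rw [← h]
    apply Finset.sum_congr rfl
    intro k _
    rw [Units.val_pow_eq_pow_val]

variable [IsDomain A] (𝔭 : Ideal A) (z : Aˣ) {m v : ℕ}

theorem row_orth (hv : 0 < v) (hz : IsPrimitiveRoot z v) (hm0 : m ≠ 0) (hmv : m < v)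
    (hzm : Ideal.Quotient.mk 𝔭 ((z ^ m : Aˣ) : A) = 1) :
    mat (Mx 𝔭 z m v) * star (Mx 𝔭 z m v) = (v : Rg A 𝔭) • (1 : Matrix (Fin v) (Fin v) (Rg A 𝔭)) := by
  have hzm' : Ideal.Quotient.mk 𝔭 (((z ^ m)⁻¹ : Aˣ) : A) = 1 := by
    have h1 : Ideal.Quotient.mk 𝔭 ((z ^ m : Aˣ) : A) * Ideal.Quotient.mk 𝔭 (((z ^ m)⁻¹ : Aˣ) : A) = 1 := by
      rw [← map_mul, Units.mul_inv, map_one]
    rwa [hzm, one_mul] at h1
  ext1 i j
  rw [Matrix.mul_apply]
  simp only [mat, star, Matrix.of_apply, Mx, ent_val, ent_inv, pr_mul, Matrix.smul_apply,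
    smul_eq_mul]
  apply TrivSqZeroExt.ext
  · rw [TrivSqZeroExt.fst_sum]
    simp only [fst_pr]
    by_cases hij : i = j
    · subst hij
      rw [Matrix.one_apply_eq, mul_one]
      simp only [Units.mul_inv]
      simp
    · rw [Matrix.one_apply_ne hij, mul_zero, TrivSqZeroExt.fst_zero]
      rw [← geom v (z ^ (i : ℕ) * (z ^ (j : ℕ))⁻¹) ?_ ?_]
      · apply Finset.sum_congr rfl
        intro k _
        rw [← Units.val_mul]
        congr 1
        rw [mul_pow, inv_pow, ← pow_mul, ← pow_mul]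
      · rw [mul_pow, inv_pow, ← pow_mul, ← pow_mul, mul_comm (i : ℕ), mul_comm (j : ℕ), pow_mul,
          pow_mul, hz.pow_eq_one]
        simp
      · intro h
        rw [mul_inv_eq_one] at h
        exact hij (Fin.ext (hz.pow_inj i.2 j.2 h))
  · rw [TrivSqZeroExt.snd_sum]
    simp only [snd_pr, dd]
    have hR : TrivSqZeroExt.snd ((v : Rg A 𝔭) * (1 : Matrix (Fin v) (Fin v) (Rg A 𝔭)) i j) = 0 := by
      by_cases hij : i = j
      · subst hij
        rw [Matrix.one_apply_eq, mul_one, TrivSqZeroExt.snd_natCast]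
      · rw [Matrix.one_apply_ne hij, mul_zero, TrivSqZeroExt.snd_zero]
    rw [hR]
    by_cases hi : (i : ℕ) = 0
    · by_cases hj : (j : ℕ) = 0
      · simp [hi, hj]
      · simp only [hi, hj, if_true, if_false, neg_zero, mul_zero, zero_add]
        have e := sum_delta 𝔭 hmv (fun k => Ideal.Quotient.mk 𝔭 (((z ^ ((j : ℕ) * k))⁻¹ : Aˣ) : A))
        rw [e]
        simp only [mul_zero, pow_zero, inv_one, Units.val_one, map_one]
        rw [mul_comm (j : ℕ) m, pow_mul, ← inv_pow, Units.val_pow_eq_pow_val, map_pow, hzm']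
        simp
    · by_cases hj : (j : ℕ) = 0
      · simp only [hi, hj, if_true, if_false, mul_zero, add_zero, mul_neg, Finset.sum_neg_distrib]
        have e := sum_delta 𝔭 hmv (fun k => Ideal.Quotient.mk 𝔭 ((z ^ ((i : ℕ) * k) : Aˣ) : A))
        rw [e]
        simp only [mul_zero, pow_zero, Units.val_one, map_one]
        rw [mul_comm (i : ℕ) m, pow_mul, Units.val_pow_eq_pow_val, map_pow, hzm]
        simp
      · simp [hi, hj]

omit [IsDomain A] in
theorem col_not_orth [Nontrivial (A ⧸ 𝔭)] (hv : 3 ≤ v) (hm0 : m ≠ 0) :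
    star (Mx 𝔭 z m v) * mat (Mx 𝔭 z m v) ≠ (v : Rg A 𝔭) • (1 : Matrix (Fin v) (Fin v) (Rg A 𝔭)) := by
  intro h
  obtain ⟨k, hk0, hkm, hkv⟩ : ∃ k : ℕ, k ≠ 0 ∧ k ≠ m ∧ k < v := by
    by_cases h1 : m = 1
    · exact ⟨2, by norm_num, by omega, by omega⟩
    · exact ⟨1, by norm_num, by omega, by omega⟩
  have h1 := congrFun (congrFun h ⟨0, by omega⟩) ⟨k, hkv⟩
  rw [Matrix.mul_apply] at h1
  simp only [mat, star, Matrix.of_apply, Mx, ent_val, ent_inv, pr_mul, Matrix.smul_apply,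
    smul_eq_mul] at h1
  rw [Matrix.one_apply_ne (by intro h2; exact hk0 (Fin.mk.inj h2).symm), mul_zero] at h1
  have h2 := congrArg TrivSqZeroExt.snd h1
  rw [TrivSqZeroExt.snd_sum] at h2
  simp only [snd_pr, dd, TrivSqZeroExt.snd_zero] at h2
  rw [Fin.sum_univ_eq_sum_range (fun i => Ideal.Quotient.mk 𝔭 (((z ^ (i * 0))⁻¹ : Aˣ) : A) *
      (if i = 0 then delta 𝔭 m k else 0) + Ideal.Quotient.mk 𝔭 ((z ^ (i * k) : Aˣ) : A) *
      -(if i = 0 then delta 𝔭 m 0 else 0)) v] at h2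
  rw [Finset.sum_eq_single 0] at h2
  · rw [if_pos rfl, if_pos rfl, delta_zero 𝔭 hm0, delta_of_ne 𝔭 hk0 hkm] at h2
    simp at h2
  · intro b _ hb
    simp [hb]
  · intro h3
    exact absurd (Finset.mem_range.2 (by omega)) h3

omit [IsDomain A] in
theorem charZero_Rg [CharZero A] : CharZero (Rg A 𝔭) := by
  constructor
  intro a b hab
  have := congrArg TrivSqZeroExt.fst hab
  rw [TrivSqZeroExt.fst_natCast, TrivSqZeroExt.fst_natCast] at this
  exact_mod_cast this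

theorem idem (e : Rg A 𝔭) (he : e * e = e) : e = 0 ∨ e = 1 := by
  have h1 := congrArg TrivSqZeroExt.fst he
  have h2 := congrArg TrivSqZeroExt.snd he
  rw [TrivSqZeroExt.fst_mul] at h1
  simp only [TrivSqZeroExt.snd_mul, op_smul_eq_smul] at h2
  have h3 : e.fst = 0 ∨ e.fst = 1 := by
    have : e.fst * (e.fst - 1) = 0 := by linear_combination h1
    rcases mul_eq_zero.1 this with h | h
    · left; exact h
    · right; linear_combination h
  rcases h3 with h | h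
  · left
    rw [h] at h2
    simp only [zero_smul, add_zero] at h2
    exact TrivSqZeroExt.ext h h2.symm
  · right
    rw [h] at h2
    simp only [one_smul] at h2
    refine TrivSqZeroExt.ext h ?_
    simpa using h2

theorem generic [CharZero A] [Nontrivial (A ⧸ 𝔭)] (hv : 3 ≤ v) (hz : IsPrimitiveRoot z v)
    (hm0 : m ≠ 0) (hmv : m < v) (hzm : Ideal.Quotient.mk 𝔭 ((z ^ m : Aˣ) : A) = 1) :
    ∃ (R : Type) (_ : CommRing R), CharZero R ∧
      (∀ e : R, e * e = e → e = 0 ∨ e = 1) ∧ ∃ M : Matrix (Fin v) (Fin v) Rˣ,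
      mat M * star M = (v : R) • (1 : Matrix (Fin v) (Fin v) R) ∧
      star M * mat M ≠ (v : R) • (1 : Matrix (Fin v) (Fin v) R) :=
  ⟨Rg A 𝔭, inferInstance, charZero_Rg 𝔭, fun e he => idem 𝔭 e he, Mx 𝔭 z m v,
    row_orth 𝔭 z (by omega) hz hm0 hmv hzm, col_not_orth 𝔭 z hv hm0⟩

end general

/-- The ring of all algebraic integers. -/
abbrev AI : Type := integralClosure ℤ ℂ

theorem not_unit {p : ℕ} (hp : p.Prime) : ¬ IsUnit (p : AI) := by
  intro h
  obtain ⟨x, hx⟩ := h.exists_right_inv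
  have h1 : (p : ℂ) * (x : ℂ) = 1 := by exact_mod_cast congrArg Subtype.val hx
  have hp0 : (p : ℂ) ≠ 0 := by exact_mod_cast hp.ne_zero
  have h2 : (x : ℂ) = algebraMap ℚ ℂ ((p : ℚ)⁻¹) := by
    rw [map_inv₀, map_natCast]
    exact eq_inv_of_mul_eq_one_right h1
  have h3 : IsIntegral ℤ (x : ℂ) := x.2
  rw [h2, isIntegral_algebraMap_iff (algebraMap ℚ ℂ).injective, IsIntegrallyClosed.isIntegral_iff] at h3
  obtain ⟨y, hy⟩ := h3
  have hp0' : (p : ℚ) ≠ 0 := by exact_mod_cast hp.ne_zero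
  have h4 : (p : ℚ) * (y : ℚ) = 1 := by
    have : (y : ℚ) = (p : ℚ)⁻¹ := by simpa using hy
    rw [this, mul_inv_cancel₀ hp0']
  have h5 : (p : ℤ) * y = 1 := by exact_mod_cast h4
  have h6 : IsUnit (p : ℤ) := IsUnit.of_mul_eq_one y h5
  rw [Int.isUnit_iff] at h6
  have := hp.two_le
  omega

/-- **One-sided does not imply two-sided.** For `v = 2`, over every ring with unity, `M M* = 2 I`
implies `M* M = 2 I`. For every `v ≥ 3` there are a commutative ring `R` of characteristic `0`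
(so that `v · 1 ≠ 0` in `R`) whose only idempotents are `0` and `1`, and a `v × v` matrix `M` with
entries in the group `N = Rˣ` of units of `R`, with `M M* = v I` and `M* M ≠ v I`. -/
theorem result :
    (∀ (R : Type) [Ring R] (M : Matrix (Fin 2) (Fin 2) Rˣ),
      mat M * star M = (2 : R) • (1 : Matrix (Fin 2) (Fin 2) R) →
      star M * mat M = (2 : R) • (1 : Matrix (Fin 2) (Fin 2) R)) ∧
    ∀ v : ℕ, 3 ≤ v → ∃ (R : Type) (_ : CommRing R), CharZero R ∧
      (∀ e : R, e * e = e → e = 0 ∨ e = 1) ∧ ∃ M : Matrix (Fin v) (Fin v) Rˣ,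
      mat M * star M = (v : R) • (1 : Matrix (Fin v) (Fin v) R) ∧
      star M * mat M ≠ (v : R) • (1 : Matrix (Fin v) (Fin v) R) := by
  refine ⟨fun R _ M h => two_case M h, ?_⟩
  intro v hv
  -- a prime divisor of `v`
  obtain ⟨p, hp, m, hvm⟩ := Nat.exists_prime_and_dvd (n := v) (by omega)
  have hm0 : m ≠ 0 := by rintro rfl; omega
  have hmv : m < v := by
    rw [hvm]
    have := hp.two_le
    nlinarith [Nat.pos_of_ne_zero hm0]
  -- a maximal ideal above `p`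
  have hne : Ideal.span {(p : AI)} ≠ ⊤ := by
    rw [Ne, Ideal.span_singleton_eq_top]
    exact not_unit hp
  obtain ⟨𝔭, h𝔭, hle⟩ := Ideal.exists_le_maximal _ hne
  have hpmem : (p : AI) ∈ 𝔭 := hle (Ideal.mem_span_singleton_self _)
  have hpr : 𝔭.IsPrime := h𝔭.isPrime
  have hntr : Nontrivial (AI ⧸ 𝔭) := Ideal.Quotient.nontrivial_iff.2 hpr.ne_top
  have hfact : Fact p.Prime := ⟨hp⟩
  have hchar : CharP (AI ⧸ 𝔭) p := by
    obtain ⟨c, hc⟩ := CharP.exists (AI ⧸ 𝔭)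
    have h1 : ((p : ℕ) : AI ⧸ 𝔭) = 0 := by
      have := Ideal.Quotient.eq_zero_iff_mem.2 hpmem
      simpa using this
    rw [CharP.cast_eq_zero_iff (AI ⧸ 𝔭) c] at h1
    rcases (Nat.dvd_prime hp).1 h1 with h | h
    · exfalso
      subst h
      have h0 := CharP.cast_eq_zero (AI ⧸ 𝔭) 1
      rw [Nat.cast_one] at h0
      exact one_ne_zero h0
    · rwa [h] at hc
  -- a primitive root of unity
  have hprim := Complex.isPrimitiveRoot_exp v (by omega)
  set ζ : ℂ := Complex.exp (2 * Real.pi * Complex.I / v) with hζ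
  have hint : IsIntegral ℤ ζ := hprim.isIntegral (by omega)
  let ζ' : AI := ⟨ζ, hint⟩
  have hpow : ζ' ^ v = 1 := Subtype.ext (by
    show ζ ^ v = 1
    exact hprim.pow_eq_one)
  let z : AIˣ := Units.ofPowEqOne ζ' v hpow (by omega)
  have hzval : ((z : AIˣ) : AI) = ζ' := rfl
  have hz : IsPrimitiveRoot z v := by
    constructor
    · apply Units.ext
      rw [Units.val_pow_eq_pow_val, hzval, hpow, Units.val_one]
    · intro l hl
      apply hprim.dvd_of_pow_eq_one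
      have h1 := congrArg (Units.val) hl
      rw [Units.val_pow_eq_pow_val, hzval, Units.val_one] at h1
      exact congrArg Subtype.val h1
  have hzm : Ideal.Quotient.mk 𝔭 ((z ^ m : AIˣ) : AI) = 1 := by
    have h1 : (Ideal.Quotient.mk 𝔭 ((z ^ m : AIˣ) : AI)) ^ p = 1 := by
      rw [← map_pow, ← Units.val_pow_eq_pow_val, ← pow_mul, mul_comm m p, ← hvm, hz.pow_eq_one,
        Units.val_one, map_one]
    have h2 : (Ideal.Quotient.mk 𝔭 ((z ^ m : AIˣ) : AI) - 1) ^ p = 0 := by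
      rw [sub_pow_char, h1, one_pow, sub_self]
    have h3 := pow_eq_zero_iff (hp.ne_zero) |>.1 h2
    linear_combination h3
  exact generic 𝔭 z hv hz hm0 hmv hzm

end Pool.Agent.Results.MP_4780e6_al.OneSidedNotTwoSided
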